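import Mathlib
import Pool.Agent.Helper12.BX.Play0

/-!
# The first state and the step of the play (section 5)
-/

set_option autoImplicit false

namespace Pool.Agent.Helper12.BX

open Relation

theorem playZero {g : PF → ℕ → ℕ} (F : Fus g) : PlayZero F := by
  have h0 : F.u 0 = none := F.u_even 0 (by simp)
  have hdom : ∀ k, F.u (P F.u k).1 ≠ none := by
    intro k h
    have h1 := F.inc k
    rw [P_succ, stp_none h] at h1
    exact lt_irrefl _ h1
  have hlev : lev F.u 0 = 0 := by simp [lev]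
  have hmk : ∀ e, ¬ Mk (up F.u 0 (g F.u 0)) e := by
    rintro e ⟨d, w, h1, h2, h3, _⟩
    rw [up_ne (by omega), F.u_even d h2] at h3
    cases h3
  refine ⟨{
    u := F.u
    n := 0
    B := up F.u 0 (g F.u 0)
    A := Set.range F.e
    I := ∅
    ff := Or.inl ⟨rfl, h0, hdom⟩
    lt := by simp
    none := by rw [hlev]; exact h0
    val := ⟨g F.u 0, by rw [hlev]; exact up_self _ _ _, by rw [hlev]⟩
    eqB := ?_
    ext := ext_up h0
    B0 := by simp
    even := ⟨1, ?_⟩
    new := ?_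
    mark := ?_
    gp := by simp
    gap := ?_
    A_e := subset_rfl
    A_B := ?_
    ok := ?_
    okμ := ?_ }, rfl, rfl⟩
  · intro d hd
    rw [hlev] at hd
    exact up_ne hd
  · intro d hd he
    rw [up_ne (by omega)]
    exact F.u_even d he
  · intro d v hd hv
    by_cases h : d = 0
    · subst h; exact Or.inl (by simp)
    · rw [up_ne h, hd] at hv
      cases hv
  · intro e
    simp [hmk e]
  · intro t
    simp [IsGap]
  · rintro d ⟨j, rfl⟩
    have h1 : F.e j ≠ 0 := by
      intro h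
      apply F.e_odd j
      rw [h]; simp
    rw [up_ne h1]
    exact F.u_e j
  · intro m hm
    exact (F.ok m hm).congr 1 (fun d hd => up_ne (by omega)) (fun d _ h => h)
  · exact F.okμ.congr 1 (fun d hd => up_ne (by omega)) (fun d _ h => h)

theorem isGap_lev {y : PF} {n : ℕ} (h : FF y n) : IsGap y n (lev y n) := by
  rcases h with ⟨rfl, _, _⟩ | h
  · left; simp [lev]
  · right
    have h1 : n - 1 + 1 = n := Nat.sub_add_cancel h.pos
    have h2 : n ≠ 0 := h.pos.ne'
    refine ⟨n - 1, by omega, ?_, ?_⟩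
    · rw [h1]; exact h.mark
    · rw [h1, lev, if_neg h2]

theorem lists_of {B B' : PF} {r m v : ℕ} (h : InfWalk B (r, 0)) (hB : Ext B B')
    (hL : Lists B' r m v) : Lists B r m v := by
  obtain ⟨h1, h2, h3⟩ := hL
  rw [h.wk_eq hB] at h1 h2
  obtain ⟨w, hw⟩ := Option.ne_none_iff_exists'.1 (h m)
  have h4 := hB _ _ hw
  rw [h1] at h4
  obtain rfl : v = w := by simpa using h4
  exact ⟨hw, h2, h3⟩

theorem RegInf.mono {y y' : PF} {a r : ℕ} (h : RegInf y a r) (hy : Ext y y') : RegInf y' a r :=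
  ⟨h.1.ext hy, fun m v hL => (h.2 m v (lists_of h.1 hy hL)).ext hy⟩

theorem Gp.mono {g : PF → ℕ → ℕ} {F : Fus g} {B B' : PF} {i : ℕ} (h : Gp F B i)
    (hB : Ext B B') : Gp F B' i := by
  obtain ⟨w, h1, h2, h3⟩ := h.ex
  obtain ⟨v, h4, h5⟩ := h.ρ
  exact ⟨hB _ _ h.ba, ⟨w, h1.trans hB, h2, h3⟩, v, hB _ _ h4, h5⟩

/-- The main walk of `F.u` after the coordinate `a i` is infinite without that coordinate. -/
theorem tail_inf {g : PF → ℕ → ℕ} (F : Fus g) (i : ℕ) (p : PF)
    (hp : ∀ d v, d ≠ (F.q i).a → F.u d = some v → p d = some v) :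
    InfWalk p (dC (F.b i), (F.q i).a) := by
  have hdom : ∀ k, F.u (P F.u k).1 ≠ none := by
    intro k h
    have h1 := F.inc k
    rw [P_succ, stp_none h] at h1
    exact lt_irrefl _ h1
  have hmono : StrictMono fun k => (P F.u k).1 := strictMono_nat_of_lt_succ F.inc
  have hnext : P F.u (F.n i + 1) = (dC (F.b i), (F.q i).a) := by
    rw [P_succ, F.Pn i, stp_some (F.ua i)]
    simp [nxt]
  have key : ∀ m, wk p (dC (F.b i), (F.q i).a) m = P F.u (F.n i + 1 + m) := by
    intro m
    have h1 : P F.u (F.n i + 1 + m) = wk F.u (dC (F.b i), (F.q i).a) m := by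
      rw [← hnext]
      exact wk_add _ _ _ _
    rw [h1]
    refine wk_congr fun k _ => ?_
    have h2 : wk F.u (dC (F.b i), (F.q i).a) k = P F.u (F.n i + 1 + k) := by
      rw [← hnext]
      exact (wk_add _ _ _ _).symm
    rw [h2]
    obtain ⟨v, hv⟩ := Option.ne_none_iff_exists'.1 (hdom (F.n i + 1 + k))
    rw [hv]
    refine hp _ _ ?_ hv
    have h3 := hmono (show F.n i < F.n i + 1 + k by omega)
    simp only [F.Pn i] at h3
    exact h3.ne'
  intro m
  rw [key m]
  obtain ⟨v, hv⟩ := Option.ne_none_iff_exists'.1 (hdom (F.n i + 1 + m))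
  rw [hp _ _ ?_ hv]
  · simp
  · have h3 := hmono (show F.n i < F.n i + 1 + m by omega)
    simp only [F.Pn i] at h3
    exact h3.ne'

theorem e_strict {g : PF → ℕ → ℕ} (F : Fus g) (N : ℕ) : ∃ K, ∀ j, K ≤ F.e j → N ≤ j := by
  refine ⟨(Finset.range N).sup F.e + 1, fun j hj => ?_⟩
  by_contra h
  have := Finset.le_sup (f := F.e) (Finset.mem_range.2 (not_le.1 h))
  omega

theorem playStep {g : PF → ℕ → ℕ} (F : Fus g) (hF : PlayF F) (hX : XvCongr) : PlayStep F := by
  classical
  intro x κ H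
  obtain ⟨K0, hK0⟩ := x.even
  obtain ⟨d, hd, hdK⟩ : ∃ d, Even d ∧ K0 + κ + 2 ≤ d :=
    ⟨2 * (K0 + κ + 1), even_two_mul _, by omega⟩
  have hdB : x.B d = none := hK0 d (by omega) hd
  obtain ⟨i, hi, hiB, -⟩ := x.okμ (d + 1 + κ + K0 + H d + (x.I.sup id + 1))
  have hIi : ∀ j ∈ x.I, j < i := by
    intro j hj
    have h1 := Finset.le_sup (f := id) hj
    simp only [id] at h1
    have h2 : x.I.sup id < i := by omega
    exact lt_of_le_of_lt h1 h2
  obtain ⟨S, hS⟩ : ∃ S, S = SS F.e (fun i => (F.q i).ρ) i := ⟨_, rfl⟩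
  have hiB' : ∀ t ∈ S, ∀ v, x.B t = some v → v ≤ bd ((F.q i).a + i) := by
    intro t ht v hv
    rw [hS] at ht
    exact hiB t ht v hv
  have hai : i ≤ (F.q i).a := F.a_mono.le_apply
  have hρi : i ≤ (F.q i).ρ := F.ρ_ge i
  obtain ⟨e1, he1A, he1, he1B⟩ := x.okμ.unbounded (κ + (Finset.range (i + 1)).sup F.e)
  obtain ⟨j1, rfl⟩ := x.A_e he1A
  have hj1 : i < j1 := by
    by_contra h
    have h1 : j1 ∈ Finset.range (i + 1) := Finset.mem_range.2 (by omega)
    have h2 := Finset.le_sup (f := F.e) h1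
    omega
  obtain ⟨c, hc⟩ : ∃ c, c = F.q i := ⟨_, rfl⟩
  have hmem : ∀ t, t ∈ S ↔ t = 0 ∨ (t < i ∧ Even t) ∨ (∃ j, j < i ∧ F.e j = t) ∨
      ∃ j, j < i ∧ (F.q j).ρ = t := by
    intro t
    rw [hS]
    exact mem_SS
  have hSρ : c.ρ ∉ S := by
    rw [hmem]
    rintro (h | ⟨h, _⟩ | ⟨j, _, h⟩ | ⟨j, hj, h⟩)
    · apply F.ρ_odd i
      rw [← hc, h]; simp
    · rw [hc] at h; omega
    · rw [hc] at h; exact F.e_ne i j h
    · rw [hc] at h; exact F.ρ_ne j i hj h
  have hSd : d ∈ S := (hmem d).2 (Or.inr (Or.inl ⟨by omega, hd⟩))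
  have hSe : ∀ j, i ≤ j → F.e j ∉ S := by
    intro j hj
    rw [hmem]
    rintro (h | ⟨h, _⟩ | ⟨j', hj', h⟩ | ⟨j', _, h⟩)
    · apply F.e_odd j
      rw [h]; simp
    · have := F.e_ge j
      omega
    · have := F.e_inj h
      omega
    · exact F.e_ne j' j h.symm
  have hSu : ∀ t ∈ S, F.u t = none := by
    intro t ht
    rcases (hmem t).1 ht with h | ⟨_, h⟩ | ⟨j', _, h⟩ | ⟨j', _, h⟩
    · rw [h]; exact F.u_even 0 (by simp)
    · exact F.u_even t h
    · rw [← h]; exact F.u_e j'
    · rw [← h]; exact F.u_ρ j'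
  have hua : F.u c.a = some (F.b i) := by rw [hc]; exact F.ua i
  have haodd : ¬ Even c.a := by
    intro h
    rw [F.u_even _ h] at hua
    cases hua
  have hρodd : ¬ Even c.ρ := by rw [hc]; exact F.ρ_odd i
  have had : c.a ≠ d := fun h => haodd (h ▸ hd)
  have hρd : c.ρ ≠ d := fun h => hρodd (h ▸ hd)
  have haρ : c.a ≠ c.ρ := c.ne
  have hBa : x.B c.a = some (F.b i) := x.ext _ _ hua
  have hBρ : x.B c.ρ = none := by
    rcases h : x.B c.ρ with _ | v
    · rfl
    · exfalso
      rcases x.new c.ρ v (by rw [hc]; exact F.u_ρ i) h with h1 | ⟨j, hj, h1⟩ | ⟨j, h1, _⟩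
      · exact hρodd h1
      · rw [hc] at h1
        exact F.ρ_ne j i (hIi j hj) h1.symm
      · rw [hc] at h1
        exact F.e_ne i j h1.symm
  obtain ⟨w1, hw1⟩ : ∃ w, w = mkv 0 c.a 0 0 (H d) := ⟨_, rfl⟩
  obtain ⟨w2, hw2⟩ : ∃ w, w = mkv c.τ (F.e j1) 0 (dC (F.b i)) (max (H c.ρ) (c.h c.ρ)) :=
    ⟨_, rfl⟩
  obtain ⟨Q, hQ⟩ : ∃ Q : PF, Q = fun t => if t = c.a then none else if t = d then some w1 else
    if t = c.ρ then some w2 else x.B t := ⟨_, rfl⟩
  have hQa : Q c.a = none := by rw [hQ]; simp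
  have hQd : Q d = some w1 := by
    rw [hQ]; simp only [if_neg had.symm, if_true]
  have hQρ : Q c.ρ = some w2 := by
    rw [hQ]; simp only [if_neg haρ.symm, if_neg hρd, if_true]
  have hQo : ∀ t, t ≠ c.a → t ≠ d → t ≠ c.ρ → Q t = x.B t := by
    intro t h1 h2 h3
    rw [hQ]; simp only [if_neg h1, if_neg h2, if_neg h3]
  have hQB : ∀ t v, t ≠ c.a → x.B t = some v → Q t = some v := by
    intro t v h1 h2
    rw [hQo t h1, h2]
    · rintro rfl
      rw [hdB] at h2; cases h2
    · rintro rfl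
      rw [hBρ] at h2; cases h2
  have hQs : ∀ t v, Q t = some v → (t = d ∧ v = w1) ∨ (t = c.ρ ∧ v = w2) ∨
      (t ≠ c.a ∧ x.B t = some v) := by
    intro t v h
    by_cases h1 : t = c.a
    · rw [h1, hQa] at h; cases h
    · by_cases h2 : t = d
      · subst h2
        rw [hQd] at h
        left; exact ⟨rfl, by simpa using h.symm⟩
      · by_cases h3 : t = c.ρ
        · subst h3
          rw [hQρ] at h
          right; left; exact ⟨rfl, by simpa using h.symm⟩
        · rw [hQo t h1 h2 h3] at h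
          exact Or.inr (Or.inr ⟨h1, h⟩)
  obtain ⟨p, hp⟩ : ∃ p : PF, p = fun t => if t ∈ S then none else Q t := ⟨_, rfl⟩
  have hpS : ∀ t, t ∈ S → p t = none := by
    intro t ht
    rw [hp]; simp only [if_pos ht]
  have hpn : ∀ t, t ∉ S → p t = Q t := by
    intro t ht
    rw [hp]; simp only [if_neg ht]
  have hpu : ∀ t v, t ≠ c.a → F.u t = some v → p t = some v := by
    intro t v h1 h2
    rw [hpn t]
    · exact hQB t v h1 (x.ext _ _ h2)
    · intro h3
      rw [hSu t h3] at h2; cases h2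
  have hpc : Ext c.p p := by
    intro t v h
    refine hpu t v ?_ ?_
    · rintro rfl
      rw [c.pa] at h; cases h
    · rw [hc] at h
      exact F.q_ext_u i _ _ h
  have hpa : p c.a = none := by
    by_cases h : c.a ∈ S
    · exact hpS _ h
    · rw [hpn _ h]; exact hQa
  have hpe : ∀ j, i ≤ j → x.B (F.e j) = none → p (F.e j) = none := by
    intro j hj h
    rw [hpn _ (hSe j hj), hQo, h]
    · intro h1
      rw [h1, hBa] at h; cases h
    · intro h1
      exact F.e_odd j (h1 ▸ hd)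
    · intro h1
      rw [hc] at h1
      exact F.e_ne i j h1
  have hpρ : p c.ρ = some w2 := by rw [hpn _ hSρ]; exact hQρ
  have hp_fin : ∀ t, c.a + d + c.ρ + κ + F.e j1 + S.sup id + (Finset.range i).sup F.e + 1 ≤ t →
      t ∉ S ∧ p t = x.B t := by
    intro t ht
    have h1 : t ∉ S := by
      intro h1
      have h2 := Finset.le_sup (f := id) h1
      simp only [id] at h2
      omega
    refine ⟨h1, ?_⟩
    rw [hpn t h1]
    exact hQo t (by omega) (by omega) (by omega)
  obtain ⟨A, hA⟩ : ∃ A : Set ℕ, A = {t | (∃ j, t = F.e j ∧ i ≤ j) ∧ t ∈ x.A ∧ κ ≤ t ∧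
    t ≠ F.e j1} := ⟨_, rfl⟩
  have hAok : ∀ m, Ok m x.B x.A → Ok m p A := by
    intro m hm
    refine hm.congr _ (fun t ht => (hp_fin t ht).2) ?_
    intro t ht htA
    obtain ⟨j, rfl⟩ := x.A_e htA
    rw [hA]
    refine ⟨⟨j, rfl, ?_⟩, htA, by omega, by omega⟩
    by_contra h
    have h2 := Finset.le_sup (f := F.e) (Finset.mem_range.2 (not_le.1 h))
    omega
  have hstep : Sq p (fun t => InfWalk p (t, c.a)) (c.ρ, c.τ) (F.e j1, c.ρ) := by
    refine ⟨w2, hpρ, ?_, fun _ _ => ?_⟩
    · rw [hw2]; simp [nxt]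
    · rw [hw2]
      simp only [dT_mkv]
      have h := tail_inf F i p (by rw [← hc]; exact hpu)
      rw [← hc] at h
      exact h
  obtain ⟨cc, hcc⟩ : ∃ cc : Cond, cc.p = p ∧ cc.A = A ∧ cc.M = insert F.μ F.M₀ ∧ cc.a = c.a ∧
      cc.r = c.r ∧ cc.ρ = F.e j1 ∧ cc.h = fun t => max (c.h t) (max (H t)
        ((F.q (Function.invFun F.e t)).h t)) := by
    refine ⟨{
      p := p
      h := fun t => max (c.h t) (max (H t) ((F.q (Function.invFun F.e t)).h t))
      A := A
      M := insert F.μ F.M₀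
      a := c.a
      r := c.r
      ρ := F.e j1
      τ := c.ρ
      dis := ?_
      pa := hpa
      aA := ?_
      pρ := hpe j1 hj1.le he1B
      ρA := ?_
      ne := ?_
      reg := (sq_mono c.reg hpc fun t ht => ht.ext hpc).tail hstep
      cnt := F.M₀_cnt.insert _
      nem := ⟨F.μ, Set.mem_insert _ _⟩
      ok := ?_ }, rfl, rfl, rfl, rfl, rfl, rfl, rfl⟩
    · intro t ht
      rw [hA] at ht
      obtain ⟨⟨j, rfl, hj⟩, h1, _⟩ := ht
      exact hpe j hj (x.A_B _ h1)
    · intro h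
      rw [hA] at h
      have := x.A_B _ h.2.1
      rw [hBa] at this; cases this
    · intro h
      rw [hA] at h
      exact h.2.2.2 rfl
    · intro h
      rw [← h, hBa] at he1B; cases he1B
    · intro m hm
      apply hAok
      rcases Set.mem_insert_iff.1 hm with rfl | hm
      · exact x.okμ
      · exact x.ok m hm
  obtain ⟨hccp, hccA, hccM, hcca, hccr, hccρ, hcch⟩ := hcc
  have hle : cc ≤ F.q i := by
    rw [← hc]
    refine ⟨hcca, hccr, ?_, ?_, ?_, ?_, ?_, ?_⟩
    · rw [hccp]; exact hpc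
    · intro t v h1 h2
      rw [hccp] at h2
      have hts : t ∉ S := by
        intro h; rw [hpS t h] at h2; cases h2
      rw [hpn t hts] at h2
      rcases hQs t v h2 with ⟨h3, _⟩ | ⟨h3, h4⟩ | ⟨h3, h4⟩
      · exact absurd (h3 ▸ hSd) hts
      · refine ⟨Or.inr h3, ?_⟩
        rw [h4, h3, hw2]
        exact (le_max_right _ _).trans (le_mkv _ _ _ _ _)
      · rcases h5 : F.u t with _ | v'
        · rcases x.new t v h5 h4 with h6 | ⟨j, hj, h6⟩ | ⟨j, h6, h7⟩
          · exfalso
            apply hts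
            rw [hmem]
            by_cases h0 : t = 0
            · exact Or.inl h0
            · right; left
              refine ⟨?_, h6⟩
              by_contra h8
              rw [hK0 t (by omega) h6] at h4; cases h4
          · exfalso
            apply hts
            rw [hmem]
            exact Or.inr (Or.inr (Or.inr ⟨j, hIi j hj, h6.symm⟩))
          · have hj : i ≤ j := by
              by_contra h8
              apply hts
              rw [hmem]
              exact Or.inr (Or.inr (Or.inl ⟨j, not_le.1 h8, h6.symm⟩))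
            rw [hc]
            refine ⟨Or.inl ?_, (F.q_h i j t hj).trans h7⟩
            rw [h6]; exact F.e_mem i j hj
        · have h6 := x.ext _ _ h5
          rw [h4] at h6
          obtain rfl : v = v' := by simpa using h6
          rw [hc] at h1 h3 ⊢
          have h7 := F.q_new i t v h1 h5 h3
          exact ⟨Or.inl h7.1, h7.2⟩
    · intro t
      rw [hcch]
      exact le_max_left _ _
    · rw [hccA, hA]
      rintro t ⟨⟨j, rfl, hj⟩, _⟩
      rw [hc]; exact F.e_mem i j hj
    · rw [hccM, hc]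
      exact (F.q_M i).trans (Set.subset_insert _ _)
    · left
      rw [hccρ, hc]
      exact F.e_mem i j1 hj1.le
  obtain ⟨Φ, hΦ⟩ : ∃ Φ : PF, Φ = fun t => if t ∈ S then Q t else none := ⟨_, rfl⟩
  have hΦS : ∀ t, t ∈ S → Φ t = Q t := by
    intro t ht
    rw [hΦ]; simp only [if_pos ht]
  have hΦn : ∀ t, t ∉ S → Φ t = none := by
    intro t ht
    rw [hΦ]; simp only [if_neg ht]
  have hbig := F.big i Φ (by
    intro t v h
    have hts : t ∈ S := by
      by_contra h1
      rw [hΦn t h1] at h; cases h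
    refine ⟨hS ▸ hts, ?_⟩
    rw [hΦS t hts] at h
    rcases hQs t v h with ⟨_, h4⟩ | ⟨h3, _⟩ | ⟨_, h4⟩
    · rw [h4, hw1, hc]
      refine mkv_le_bd ?_ ?_ ?_ ?_ ?_ <;> omega
    · exact absurd (h3 ▸ hts) hSρ
    · exact hiB' t hts v h4)
  obtain ⟨y, hyV, hy⟩ := exists_below (hbig cc hle)
  obtain ⟨u', hu'⟩ : ∃ u', u' = mrg Φ y := ⟨_, rfl⟩
  have hgu : g u' c.a ≤ F.b i := by
    rw [hu', hc]; exact hyV
  have hyext : Ext p y := by
    have := hy.ext
    rwa [hccp] at this
  have hynew : ∀ t v, p t = none → y t = some v → (∃ j, t = F.e j ∧ i ≤ j) ∧ κ ≤ t ∧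
      H t ≤ v ∧ (F.q (Function.invFun F.e t)).h t ≤ v := by
    intro t v h1 h2
    have h3 := hy.new t v (by rw [hccp]; exact h1) h2
    rw [hccA, hccρ, hcch, hA] at h3
    obtain ⟨h4, h5⟩ := h3
    have h6 : H t ≤ v ∧ (F.q (Function.invFun F.e t)).h t ≤ v := by
      simp only [max_le_iff] at h5
      exact h5.2
    rcases h4 with h4 | h4
    · exact ⟨h4.1, h4.2.2.1, h6⟩
    · refine ⟨⟨j1, h4, hj1.le⟩, ?_, h6⟩
      rw [h4]; omega
  have hyS : ∀ t, t ∈ S → y t = none := by
    intro t ht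
    rcases h : y t with _ | v
    · rfl
    · obtain ⟨⟨j, h1, h2⟩, _⟩ := hynew t v (hpS t ht) h
      exact absurd (h1 ▸ ht) (hSe j h2)
  have hu'S : ∀ t, t ∈ S → u' t = Q t := by
    intro t ht
    rw [hu']
    unfold mrg
    rw [hΦS t ht, hyS t ht]
    simp
  have hu'n : ∀ t, t ∉ S → u' t = y t := by
    intro t ht
    rw [hu']
    exact mrg_none (hΦn t ht)
  have hya : y c.a = none := by
    have := hy.pa
    rwa [hcca] at this
  have hreg : RegInf y c.a c.r := by
    have := hy.reg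
    rwa [hcca, hccr] at this
  have hu'a : u' c.a = none := by
    by_cases h : c.a ∈ S
    · rw [hu'S _ h]; exact hQa
    · rw [hu'n _ h]; exact hya
  have hyu' : Ext y u' := by
    intro t v h
    by_cases h1 : t ∈ S
    · rw [hyS t h1] at h; cases h
    · rw [hu'n t h1]; exact h
  have hBu' : ∀ t v, t ≠ c.a → x.B t = some v → u' t = some v := by
    intro t v h1 h2
    by_cases h3 : t ∈ S
    · rw [hu'S t h3]; exact hQB t v h1 h2
    · rw [hu'n t h3]
      apply hyext
      rw [hpn t h3]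
      exact hQB t v h1 h2
  have hnew : ∀ t v, x.B t = none → u' t = some v → (t = d ∧ v = w1) ∨ (t = c.ρ ∧ v = w2) ∨
      ((∃ j, t = F.e j ∧ i ≤ j) ∧ κ ≤ t ∧ H t ≤ v ∧
        (F.q (Function.invFun F.e t)).h t ≤ v) := by
    intro t v h1 h2
    have key : Q t = some v → (t = d ∧ v = w1) ∨ (t = c.ρ ∧ v = w2) := by
      intro h3
      rcases hQs t v h3 with h4 | h4 | ⟨_, h4⟩
      · exact Or.inl h4
      · exact Or.inr h4
      · rw [h1] at h4; cases h4
    by_cases h3 : t ∈ S
    · rw [hu'S t h3] at h2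
      rcases key h2 with h | h
      · exact Or.inl h
      · exact Or.inr (Or.inl h)
    · rw [hu'n t h3] at h2
      rcases h4 : p t with _ | v'
      · exact Or.inr (Or.inr (hynew t v h4 h2))
      · have h5 := hyext _ _ h4
        rw [h2] at h5
        obtain rfl : v = v' := by simpa using h5
        rw [hpn t h3] at h4
        rcases key h4 with h | h
        · exact Or.inl h
        · exact Or.inr (Or.inl h)
  have hu'd : u' d = some w1 := by rw [hu'S d hSd]; exact hQd
  have hMk : ∀ e, Mk u' e ↔ e = c.a ∨ ∃ j ∈ x.I, e = (F.q j).a := by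
    intro e
    constructor
    · rintro ⟨d', w', h1, h2, h3, h4⟩
      rcases h5 : x.B d' with _ | w''
      · rcases hnew d' w' h5 h3 with ⟨_, h6⟩ | ⟨h6, _⟩ | ⟨⟨j, h6, _⟩, _⟩
        · left
          rw [← h4, h6, hw1]; simp
        · exact absurd (h6 ▸ h2) hρodd
        · exact absurd (h6 ▸ h2) (F.e_odd j)
      · right
        rw [← x.mark e]
        have h6 := hBu' d' w'' (fun h => haodd (h ▸ h2)) h5
        rw [h3] at h6
        obtain rfl : w' = w'' := by simpa using h6
        exact ⟨d', w', h1, h2, h5, h4⟩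
    · rintro (h | h)
      · rw [h]
        exact ⟨d, w1, by omega, hd, hu'd, by rw [hw1]; simp⟩
      · rw [← x.mark e] at h
        obtain ⟨d', w', h1, h2, h3, h4⟩ := h
        exact ⟨d', w', h1, h2, hBu' d' w' (fun h => haodd (h ▸ h2)) h3, h4⟩
  obtain ⟨hIsF, hP, hgap⟩ := hF x.B u' x.I i (fun j hj => ⟨hIi j hj, x.gp j hj⟩) x.ext
    (by rw [← hc]; exact hBu') (by rw [← hc]; exact hu'a) x.B0 (by rw [← hc]; exact hMk)
    (by rw [← hc]; exact hreg.mono hyu')
  have hlev : lev u' (F.n i) = c.a := by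
    unfold lev
    rw [if_neg (F.n_pos i).ne', hP _ le_rfl, F.Pn i, hc]
  obtain ⟨B', hB'⟩ : ∃ B', B' = up u' c.a (F.b i) := ⟨_, rfl⟩
  have hB'a : B' c.a = some (F.b i) := by rw [hB']; exact up_self _ _ _
  have hB'n : ∀ t, t ≠ c.a → B' t = u' t := by
    intro t ht
    rw [hB']; exact up_ne ht
  have hu'B' : Ext u' B' := by
    rw [hB']; exact ext_up hu'a
  have hBB' : Ext x.B B' := by
    intro t v h
    by_cases h1 : t = c.a
    · rw [h1, hBa] at h
      rw [h1, hB'a]; exact h
    · rw [hB'n t h1]; exact hBu' t v h1 h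
  have hBnew : ∀ t v, x.B t = none → B' t = some v → (t = d ∧ v = w1) ∨ (t = c.ρ ∧ v = w2) ∨
      ((∃ j, t = F.e j ∧ i ≤ j) ∧ κ ≤ t ∧ H t ≤ v ∧
        (F.q (Function.invFun F.e t)).h t ≤ v) := by
    intro t v h1 h2
    have h3 : t ≠ c.a := by
      intro h3
      rw [h3, hBa] at h1; cases h1
    rw [hB'n t h3] at h2
    exact hnew t v h1 h2
  have hκa : κ ≤ c.a := by rw [hc]; omega
  have hκρ : κ ≤ c.ρ := by rw [hc]; omega
  refine ⟨{
    u := u'
    n := F.n i
    B := B'
    A := {t | t ∈ A ∧ y t = none}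
    I := insert i x.I
    ff := Or.inr hIsF
    lt := ?_
    none := by rw [hlev]; exact hu'a
    val := ⟨F.b i, by rw [hlev]; exact hB'a, by rw [hlev]; exact hgu⟩
    eqB := by rw [hlev]; exact hB'n
    ext := x.ext.trans hBB'
    B0 := hBB'.ne_none x.B0
    even := ⟨K0 + d + 1, ?_⟩
    new := ?_
    mark := ?_
    gp := ?_
    gap := ?_
    A_e := ?_
    A_B := ?_
    ok := ?_
    okμ := ?_ }, hBB', ?_, ?_, ?_⟩
  · intro j hj
    rw [hlev, hc]
    rcases Finset.mem_insert.1 hj with rfl | hj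
    · exact le_rfl
    · exact (F.a_mono (hIi j hj)).le
  · intro t ht he
    rcases h : B' t with _ | v
    · rfl
    · rcases hBnew t v (hK0 t (by omega) he) h with ⟨h6, _⟩ | ⟨h6, _⟩ | ⟨⟨j, h6, _⟩, _⟩
      · omega
      · exact absurd (h6 ▸ he) hρodd
      · exact absurd (h6 ▸ he) (F.e_odd j)
  · intro t v h1 h2
    rcases h3 : x.B t with _ | v'
    · rcases hBnew t v h3 h2 with ⟨h6, _⟩ | ⟨h6, _⟩ | ⟨⟨j, h6, _⟩, _, _, h7⟩
      · left; rw [h6]; exact hd
      · right; left
        exact ⟨i, Finset.mem_insert_self _ _, by rw [h6, hc]⟩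
      · right; right
        refine ⟨j, h6, ?_⟩
        rw [h6, Function.leftInverse_invFun F.e_inj j] at h7
        rw [h6]; exact h7
    · have h4 := hBB' _ _ h3
      rw [h2] at h4
      obtain rfl : v = v' := by simpa using h4
      rcases x.new t v h1 h3 with h6 | ⟨j, hj, h6⟩ | h6
      · exact Or.inl h6
      · exact Or.inr (Or.inl ⟨j, Finset.mem_insert_of_mem hj, h6⟩)
      · exact Or.inr (Or.inr h6)
  · intro e
    have h1 : Mk B' e ↔ Mk u' e := by
      constructor
      · rintro ⟨d', w', h1, h2, h3, h4⟩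
        rw [hB'n d' (fun h => haodd (h ▸ h2))] at h3
        exact ⟨d', w', h1, h2, h3, h4⟩
      · rintro ⟨d', w', h1, h2, h3, h4⟩
        exact ⟨d', w', h1, h2, hu'B' _ _ h3, h4⟩
    rw [h1, hMk e]
    simp only [Finset.mem_insert, exists_eq_or_imp, hc]
  · intro j hj
    rcases Finset.mem_insert.1 hj with rfl | hj
    · refine ⟨by rw [← hc]; exact hB'a, ⟨y, hyu'.trans hu'B', by rw [← hc]; exact hya,
        by rw [← hc]; exact hreg⟩, w2, ?_, ?_, ?_⟩
      · rw [← hc, hB'n _ haρ.symm, hu'n _ hSρ]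
        exact hyext _ _ hpρ
      · rw [hw2, ← hc]; simp
      · rw [hw2]; simp
    · exact (x.gp j hj).mono hBB'
  · intro t
    rw [hgap t]
    simp only [Finset.mem_insert, exists_eq_or_imp]
  · rintro t ⟨h1, _⟩
    rw [hA] at h1
    obtain ⟨j, h2, _⟩ := h1.1
    exact ⟨j, h2.symm⟩
  · rintro t ⟨h1, h2⟩
    rw [hA] at h1
    obtain ⟨⟨j, rfl, hj⟩, h3, _⟩ := h1
    have h4 : F.e j ≠ c.a := by
      intro h4
      have h5 := x.A_B _ h3
      rw [h4, hBa] at h5; cases h5
    rw [hB'n _ h4, hu'n _ (hSe j hj)]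
    exact h2
  · intro m hm
    have h1 := hy.ok m (by rw [hccM]; exact Set.mem_insert_of_mem _ hm)
    rw [hccA] at h1
    refine h1.congr (c.a + S.sup id + 1) ?_ (fun t _ h => h)
    intro t ht
    have h2 : t ∉ S := by
      intro h2
      have h3 := Finset.le_sup (f := id) h2
      simp only [id] at h3
      omega
    rw [hB'n t (by omega), hu'n t h2]
  · have h1 := hy.ok F.μ (by rw [hccM]; exact Set.mem_insert _ _)
    rw [hccA] at h1
    refine h1.congr (c.a + S.sup id + 1) ?_ (fun t _ h => h)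
    intro t ht
    have h2 : t ∉ S := by
      intro h2
      have h3 := Finset.le_sup (f := id) h2
      simp only [id] at h3
      omega
    rw [hB'n t (by omega), hu'n t h2]
  · intro t v h1 h2
    change B' t = some v at h2
    rcases hBnew t v h1 h2 with ⟨h6, h7⟩ | ⟨h6, h7⟩ | ⟨_, h6, h7, _⟩
    · rw [h6, h7, hw1]
      exact ⟨by omega, le_mkv _ _ _ _ _⟩
    · rw [h6, h7, hw2]
      exact ⟨hκρ, (le_max_left _ _).trans (le_mkv _ _ _ _ _)⟩
    · exact ⟨h6, h7⟩
  · change κ ≤ lev u' (F.n i)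
    rw [hlev]; exact hκa
  · change ∀ t, t < κ → xv u' (F.n i) t = xv x.u x.n t
    apply hX
    · intro t ht
      rw [hgap t, x.gap t]
      constructor
      · rintro (h | h)
        · exact Or.inl h
        · exact Or.inr (Or.inr h)
      · rintro (h | h | h)
        · exact Or.inl h
        · exfalso
          rw [← hc] at h
          omega
        · exact Or.inr h
    · intro t ht
      by_cases h : t = lev x.u x.n
      · right
        refine ⟨h ▸ isGap_lev x.ff, fun t' h1 _ h2 => ?_⟩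
        rw [x.gap t'] at h2
        rcases h2 with h2 | ⟨j, hj, h2⟩
        · omega
        · have := x.lt j hj
          omega
      · left
        rw [← x.eqB t h]
        have h1 : t ≠ c.a := by omega
        rcases h2 : x.B t with _ | v
        · rcases h3 : u' t with _ | v
          · rfl
          · exfalso
            rcases hnew t v h2 h3 with ⟨h6, _⟩ | ⟨h6, _⟩ | ⟨_, h6, _⟩
            · omega
            · omega
            · omega
        · exact (hBu' t v h1 h2).symm

end Pool.Agent.Helper12.BX
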